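import Pool.Agent.H606.AV.Stm5

/-! Project LF (helper606), part LINF (edit of `Pool/Agent/H187/AV/Lina.lean`). -/

set_option autoImplicit false

open Complex Filter Topology Metric Set MeasureTheory

namespace Pool.Agent.H638.AV

open Pool.Agent.H606.AV

theorem int_exp : Integrable (fun u : ℝ => Real.exp (-|u|)) := by
  have h1 : Integrable (fun u : ℝ => 2 * (1 + u ^ 2)⁻¹) := integrable_inv_one_add_sq.const_mul 2
  refine h1.mono' (by fun_prop) (Eventually.of_forall fun u => ?_)
  have h2 : 1 + |u| + |u| ^ 2 / 2 ≤ Real.exp |u| := Real.quadratic_le_exp_of_nonneg (abs_nonneg u)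
  have h3 : (1 + u ^ 2) / 2 ≤ Real.exp |u| := by
    have := abs_nonneg u
    rw [← sq_abs u]
    linarith
  have h4 : (0 : ℝ) < 1 + u ^ 2 := by positivity
  rw [Real.norm_eq_abs, abs_of_pos (Real.exp_pos _), Real.exp_neg]
  have h5 : (2 : ℝ) * (1 + u ^ 2)⁻¹ = ((1 + u ^ 2) / 2)⁻¹ := by
    field_simp
  rw [h5]
  exact inv_anti₀ (by positivity) h3

/-- the pointwise bound of the integrand -/
theorem ptw {X : ℂ → ℂ} {M lt : ℝ → ℝ} {h a e' C B t δ η κ lam0 T1 : ℝ}
    (h0 : 0 < h) (h1 : h < 1 / 2) (ha : 0 < a) (ha1 : a ≤ 1 / 2) (he : 0 < e')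
    (hreg : ∀ (f : ℂ → ℂ) (M lam : ℝ), 0 < M → lam0 ≤ lam → LB f M lam (1 / 2) δ η →
      Nm (Av f h) {v : ℂ | |v.re| ≤ 1 ∧ -(1 / 2) < v.im ∧ v.im ≤ -(a / 2)} ≤ κ * lam →
      ∀ y : ℝ, a ≤ y → y ≤ 1 →
        ‖Av f h (-(I * y))‖ ≤ M * Real.exp (lam * (y + h) + e' * lam))
    (hB : |C| + 2 ≤ B) (ht : 1 ≤ t) (hlt : lam0 + 1 ≤ lt t) (hlt0 : 0 ≤ lt t) (hMt : 0 < M t)
    (hT1 : T1 ≤ t - B * Real.log t)
    (hloc : ∀ t' : ℝ, T1 ≤ t' → LB (fun v : ℂ => X (t' + v)) (M t') (lt t') (1 / 2) δ η ∧ 0 < M t')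
    (hglob : ∀ w : ℂ, |w.im| ≤ 2 → ‖X w‖ ≤ M t * Real.exp (C * Real.log t + |w.re - t|))
    (hmtd : ∀ v : ℝ, |v| ≤ B * Real.log t →
      M (t + v) ≤ 2 * M t * Real.exp |v| ∧ |lt (t + v) - lt t| ≤ 1)
    (hnz : ∀ x : ℝ, T1 ≤ x → |x - t| ≤ B * Real.log t → Nm (Av (fun v : ℂ => X (x + v)) h)
      {v : ℂ | |v.re| ≤ 1 ∧ -(1 / 2) < v.im ∧ v.im ≤ -(a / 2)} ≤ κ * lt x) (u : ℝ) :
    ‖X ((t : ℂ) - I * a + (u + I * h)) + X ((t : ℂ) - I * a + (u - I * h))‖ *
      Real.exp (-(Real.pi / (2 * h) * |u|)) ≤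
      2 * M t * Real.exp ((lt t + 1) * (a + h + e') + 1) * Real.exp (-|u|) := by
  have hL : 0 ≤ Real.log t := Real.log_nonneg ht
  have hpi : 3 ≤ Real.pi / (2 * h) := by
    rw [le_div_iff₀ (by linarith)]
    have := Real.pi_gt_three
    nlinarith
  have hk : Real.exp (-(Real.pi / (2 * h) * |u|)) ≤ Real.exp (-(3 * |u|)) := by
    apply Real.exp_le_exp.2
    have := abs_nonneg u
    nlinarith
  have hE : 0 ≤ (lt t + 1) * (a + h + e') := by positivity
  rcases le_or_gt |u| (B * Real.log t - 1) with hu | hu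
  · have hu' : |u| ≤ B * Real.log t := by linarith
    obtain ⟨hm1, hm2⟩ := hmtd u hu'
    have hul := neg_abs_le u
    obtain ⟨hlb, hMp⟩ := hloc (t + u) (by linarith)
    have hl1 : lt (t + u) ≤ lt t + 1 := by linarith [(abs_le.1 hm2).2]
    have hl2 : lam0 ≤ lt (t + u) := by linarith [(abs_le.1 hm2).1]
    have hr := hreg _ (M (t + u)) (lt (t + u)) hMp hl2 hlb
      (hnz (t + u) (by linarith) (by rwa [add_sub_cancel_left])) a le_rfl (by linarith)
    have h6 : Av (fun v : ℂ => X (((t + u : ℝ) : ℂ) + v)) h (-(I * a)) =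
        X ((t : ℂ) - I * a + (u + I * h)) + X ((t : ℂ) - I * a + (u - I * h)) := by
      simp only [Av]
      push_cast
      congr 1 <;> congr 1 <;> ring
    rw [h6] at hr
    have h7 : lt (t + u) * (a + h) + e' * lt (t + u) ≤ (lt t + 1) * (a + h + e') := by
      have : lt (t + u) * (a + h) + e' * lt (t + u) = lt (t + u) * (a + h + e') := by ring
      rw [this]
      exact mul_le_mul_of_nonneg_right hl1 (by positivity)
    have h8 : M (t + u) * Real.exp (lt (t + u) * (a + h) + e' * lt (t + u)) ≤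
        2 * M t * Real.exp |u| * Real.exp ((lt t + 1) * (a + h + e')) :=
      mul_le_mul hm1 (Real.exp_le_exp.2 h7) (Real.exp_pos _).le (by positivity)
    calc _ ≤ (2 * M t * Real.exp |u| * Real.exp ((lt t + 1) * (a + h + e'))) *
          Real.exp (-(3 * |u|)) :=
          mul_le_mul (hr.trans h8) hk (Real.exp_pos _).le (by positivity)
      _ = 2 * M t * Real.exp (|u| + (lt t + 1) * (a + h + e') + -(3 * |u|)) := by
          rw [Real.exp_add, Real.exp_add]
          ring
      _ ≤ 2 * M t * Real.exp ((lt t + 1) * (a + h + e') + 1 + -|u|) := by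
          apply mul_le_mul_of_nonneg_left _ (by positivity)
          apply Real.exp_le_exp.2
          have := abs_nonneg u
          linarith
      _ = _ := by
          rw [Real.exp_add]
          ring
  · have hg : ∀ s : ℝ, |s| ≤ 1 / 2 →
        ‖X ((t : ℂ) - I * a + (u + I * s))‖ ≤ M t * Real.exp (C * Real.log t + |u|) := by
      intro s hs
      have h9 := hglob ((t : ℂ) - I * a + (u + I * s)) (by
        have : ((t : ℂ) - I * a + (u + I * s)).im = -a + s := by simp
        rw [this]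
        have := abs_le.1 hs
        exact abs_le.2 ⟨by linarith, by linarith⟩)
      have h10 : ((t : ℂ) - I * a + (u + I * s)).re - t = u := by simp
      rwa [h10] at h9
    have hg1 := hg h (by rw [abs_of_pos h0]; linarith)
    have hg2 := hg (-h) (by rw [abs_neg, abs_of_pos h0]; linarith)
    have h11 : (t : ℂ) - I * a + (u + I * ((-h : ℝ) : ℂ)) = (t : ℂ) - I * a + (u - I * h) := by
      push_cast
      ring
    rw [h11] at hg2
    have h12 : ‖X ((t : ℂ) - I * a + (u + I * h)) + X ((t : ℂ) - I * a + (u - I * h))‖ ≤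
        2 * M t * Real.exp (C * Real.log t + |u|) := by
      refine (norm_add_le _ _).trans ?_
      linarith
    calc _ ≤ (2 * M t * Real.exp (C * Real.log t + |u|)) * Real.exp (-(3 * |u|)) :=
          mul_le_mul h12 hk (Real.exp_pos _).le (by positivity)
      _ = 2 * M t * Real.exp (C * Real.log t + |u| + -(3 * |u|)) := by
          rw [Real.exp_add (C * Real.log t + |u|)]
          ring
      _ ≤ 2 * M t * Real.exp ((lt t + 1) * (a + h + e') + 1 + -|u|) := by
          apply mul_le_mul_of_nonneg_left _ (by positivity)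
          apply Real.exp_le_exp.2
          have h13 : C * Real.log t ≤ |C| * Real.log t :=
            mul_le_mul_of_nonneg_right (le_abs_self C) hL
          have h14 : (|C| + 2) * Real.log t ≤ B * Real.log t :=
            mul_le_mul_of_nonneg_right hB hL
          nlinarith
      _ = _ := by
          rw [Real.exp_add]
          ring

theorem av_shift (X : ℂ → ℂ) (h x : ℝ) :
    Av (fun v : ℂ => X (x + v)) h = fun v : ℂ => Av X h (x + v) := by
  funext v
  simp only [Av]
  rw [add_assoc, add_sub_assoc]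

theorem img_shift (x a : ℝ) :
    (fun v : ℂ => (x : ℂ) + v) '' {v : ℂ | |v.re| ≤ 1 ∧ -(1 / 2) < v.im ∧ v.im ≤ -(a / 2)} =
      {w : ℂ | |w.re - x| ≤ 1 ∧ -(1 / 2) < w.im ∧ w.im ≤ -(a / 2)} := by
  ext w
  simp only [Set.mem_image, Set.mem_ofPred_eq]
  constructor
  · rintro ⟨v, ⟨h1, h2, h3⟩, rfl⟩
    simp only [add_re, ofReal_re, add_im, ofReal_im, zero_add, add_sub_cancel_left]
    exact ⟨h1, h2, h3⟩
  · rintro ⟨h1, h2, h3⟩
    have e1 : (w - (x : ℂ)).re = w.re - x := by simp
    have e2 : (w - (x : ℂ)).im = w.im := by simp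
    exact ⟨w - x, ⟨by rwa [e1], by rwa [e2], by rwa [e2]⟩, by ring⟩

theorem S_LINF_proof (hPOI : S_POI) (hREG : S_REGF) (hNMT : S_NMT) : S_LINF := by
  intro X M lt env h e h0 h1 he
  obtain ⟨C, Tg, hglob⟩ := env.glob
  obtain ⟨TM, hM⟩ := env.Mpos
  obtain ⟨C', Tl, hltlog⟩ := env.ltlog
  set a : ℝ := min e h / 4 with ha_def
  have ha : 0 < a := by
    have : 0 < min e h := lt_min he h0
    positivity
  have hae : a ≤ e / 4 := by
    have := min_le_left e h
    linarith
  have hah : a ≤ h / 4 := by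
    have := min_le_right e h
    linarith
  obtain ⟨δ, η, κ, lam0, hδ, hη, hκ, hlam0, hreg⟩ := hREG h a (e / 4) h0 (by linarith) ha
    (by linarith) (by linarith)
  obtain ⟨Tc, hloc⟩ := env.loc δ η hδ hη
  set B : ℝ := |C| + 2 with hB
  have hBpos : 0 < B := by positivity
  obtain ⟨Tm, hmtd⟩ := env.mtd B hBpos
  set K0 : ℝ := 1 / (2 * h * Real.cos (Real.pi * (h - a) / (2 * h))) with hK0
  have hK0pos : 0 < K0 := by
    have hpi := Real.pi_pos
    have hc : 0 < Real.cos (Real.pi * (h - a) / (2 * h)) := by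
      apply Real.cos_pos_of_mem_Ioo
      constructor
      · have : 0 ≤ Real.pi * (h - a) / (2 * h) := by
          apply div_nonneg
          · exact mul_nonneg hpi.le (by linarith)
          · linarith
        linarith
      · rw [div_lt_iff₀ (by linarith)]
        nlinarith
    positivity
  set K2 : ℝ := ∫ u : ℝ, Real.exp (-|u|) with hK2d
  have hK2 : 0 ≤ K2 := integral_nonneg fun u => (Real.exp_pos _).le
  set K1 : ℝ := K0 * (2 * K2) with hK1d
  have hK1 : 0 ≤ K1 := by positivity
  set P : ℝ := max (lam0 + 1) ((K1 + (h + e / 2) + 1) / (e / 2)) with hP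
  have e1 : ∀ᶠ t : ℝ in atTop, 2 * P + C' ≤ Real.log t :=
    Real.tendsto_log_atTop.eventually_ge_atTop _
  obtain ⟨Tk, hTk⟩ := eventually_atTop.1
    (Real.tendsto_log_atTop.eventually_ge_atTop (2 * |C'|))
  have hkl : ∀ x : ℝ, max Tl Tk ≤ x → κ / 4 * Real.log x ≤ κ * lt x := by
    intro x hx
    have h1 := (abs_le.1 (hltlog x ((le_max_left _ _).trans hx))).1
    have h2 := hTk x ((le_max_right _ _).trans hx)
    have h3 := le_abs_self C'
    have h4 : Real.log x / 4 ≤ lt x := by linarith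
    calc κ / 4 * Real.log x = κ * (Real.log x / 4) := by ring
      _ ≤ κ * lt x := mul_le_mul_of_nonneg_left h4 hκ.le
  have e2 : ∀ᶠ t : ℝ in atTop, max (max Tc TM) (max Tl Tk) ≤ t - B * Real.log t := by
    have h2 : ∀ᶠ t : ℝ in atTop, ‖Real.log t‖ ≤ 1 / (2 * B) * ‖t‖ :=
      Real.isLittleO_log_id_atTop.bound (by positivity)
    filter_upwards [h2, eventually_ge_atTop (2 * max (max Tc TM) (max Tl Tk)), eventually_ge_atTop (0 : ℝ)]
      with t h3 h4 h5
    have h6 : Real.log t ≤ 1 / (2 * B) * t := by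
      rw [Real.norm_eq_abs, Real.norm_eq_abs, abs_of_nonneg h5] at h3
      exact (le_abs_self _).trans h3
    have h7 : B * Real.log t ≤ B * (1 / (2 * B) * t) := mul_le_mul_of_nonneg_left h6 hBpos.le
    have h8 : B * (1 / (2 * B) * t) = t / 2 := by
      field_simp
    linarith
  obtain ⟨T0, hT0⟩ := eventually_atTop.1 (((e1.and e2).and ((eventually_ge_atTop (1 : ℝ)).and
    (eventually_ge_atTop Tg))).and (((eventually_ge_atTop TM).and (eventually_ge_atTop Tl)).and
    (eventually_ge_atTop Tm)))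
  refine ⟨a / 2, κ / 4, B, T0, by positivity, by positivity, hBpos, fun t ht hnz => ?_⟩
  obtain ⟨⟨⟨g1, g2⟩, g3, g4⟩, ⟨g5, g6⟩, g7⟩ := hT0 t ht
  have hl : P ≤ lt t := by
    have := (abs_le.1 (hltlog t g6)).1
    linarith
  have hl1 : lam0 + 1 ≤ lt t := (le_max_left _ _).trans hl
  have hl2 : K1 + (h + e / 2) + 1 ≤ lt t * (e / 2) := by
    have := (le_max_right _ _).trans hl
    rwa [div_le_iff₀ (by positivity)] at this
  have hl0 : 0 ≤ lt t := by linarith
  have hMt := hM t g5
  have hp := ptw (X := X) (M := M) (lt := lt) (C := C) (B := B) (t := t) h0 h1 ha (by linarith)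
    (by positivity : 0 < e / 4) hreg le_rfl g3 hl1 hl0 hMt g2
    (fun t' ht' => ⟨hloc t' ((le_max_left _ _).trans ((le_max_left _ _).trans ht')),
      hM t' ((le_max_right _ _).trans ((le_max_left _ _).trans ht'))⟩)
    (hglob t g4) (hmtd t g7) (κ := κ) (by
      intro x hx1 hx
      rw [av_shift, hNMT.1, img_shift]
      exact (hnz x hx).trans (hkl x ((le_max_right _ _).trans hx1)))
  have hpoi := hPOI h (h - a) 1 (M t * Real.exp (C * Real.log t)) h0
    (by rw [abs_of_nonneg (by linarith)]; linarith)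
    (by
      rw [lt_div_iff₀ (by linarith)]
      have := Real.pi_gt_three
      linarith)
    (fun w => X ((t : ℂ) - I * a + w)) (env.diff.comp (by fun_prop)) (by
      intro w hw
      have h9 := hglob t g4 ((t : ℂ) - I * a + w) (by
        have : ((t : ℂ) - I * a + w).im = -a + w.im := by simp
        rw [this]
        have := abs_le.1 hw
        exact abs_le.2 ⟨by linarith, by linarith⟩)
      have h10 : ((t : ℂ) - I * a + w).re - t = w.re := by simp
      rw [h10, Real.exp_add, ← mul_assoc] at h9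
      rwa [one_mul])
  have h15 : (t : ℂ) - I * a + -(I * ((h - a : ℝ) : ℂ)) = t - I * h := by
    push_cast
    ring
  simp only [h15] at hpoi
  have hint : ∫ u : ℝ, ‖X ((t : ℂ) - I * a + (u + I * h)) + X ((t : ℂ) - I * a + (u - I * h))‖ *
      Real.exp (-(Real.pi / (2 * h) * |u|)) ≤
      2 * M t * Real.exp ((lt t + 1) * (a + h + e / 4) + 1) * K2 := by
    rw [← integral_const_mul]
    apply integral_mono_of_nonneg
    · exact Eventually.of_forall fun u => by positivity
    · exact int_exp.const_mul _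
    · exact Eventually.of_forall fun u => hp u
  have h16 : (lt t + 1) * (a + h + e / 4) ≤ (lt t + 1) * (h + e / 2) :=
    mul_le_mul_of_nonneg_left (by linarith) (by linarith)
  calc ‖X (t - I * h)‖ ≤ K0 * (2 * M t * Real.exp ((lt t + 1) * (a + h + e / 4) + 1) * K2) :=
        hpoi.trans (mul_le_mul_of_nonneg_left hint hK0pos.le)
    _ = M t * (K1 * Real.exp ((lt t + 1) * (a + h + e / 4) + 1)) := by
        rw [hK1d]
        ring
    _ ≤ M t * (Real.exp K1 * Real.exp ((lt t + 1) * (a + h + e / 4) + 1)) := by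
        apply mul_le_mul_of_nonneg_left _ hMt.le
        apply mul_le_mul_of_nonneg_right _ (Real.exp_pos _).le
        linarith [Real.add_one_le_exp K1]
    _ ≤ M t * Real.exp (lt t * (h + e)) := by
        apply mul_le_mul_of_nonneg_left _ hMt.le
        rw [← Real.exp_add]
        apply Real.exp_le_exp.2
        nlinarith

end Pool.Agent.H638.AV
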